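import Pool.Agent.TH296.NumIdx.Core

/-!
MP_30533e_an (helper296): the Euclidean core: `2 m / (π e) ≤ (a b)²`.
-/

set_option autoImplicit false
open MeasureTheory Set Module
open scoped ENNReal RealInnerProductSpace Pointwise

namespace Pool.Agent.TH296.NumIdx

variable {m : ℕ}

open Pool.Agent.H356R3.HT in
/-- Blaschke-Santaló for the two sets -/
theorem santalo (V W : Set (EuclideanSpace ℝ (Fin m))) (a b : ℝ) (ha : 0 < a) (hb : 0 < b)
    (hV : ∀ v ∈ V, ‖v‖ ≤ a) (hW : ∀ w ∈ W, ‖w‖ ≤ b)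
    (hpol : ∀ x, (∀ w ∈ W, |⟪x, w⟫| ≤ 1) → ∀ y, (∀ v ∈ V, |⟪y, v⟫| ≤ 1) →
      ⟪x, y⟫ ≤ (1 : ℝ)) :
    volume {x : EuclideanSpace ℝ (Fin m) | ∀ w ∈ W, |⟪x, w⟫| ≤ 1} *
      volume {y : EuclideanSpace ℝ (Fin m) | ∀ v ∈ V, |⟪y, v⟫| ≤ 1} ≤
      ENNReal.ofReal (√Real.pi ^ m / Real.Gamma (m / 2 + 1)) ^ 2 := by
  set K := {x : EuclideanSpace ℝ (Fin m) | ∀ w ∈ W, |⟪x, w⟫| ≤ 1} with hK
  set L := {y : EuclideanSpace ℝ (Fin m) | ∀ v ∈ V, |⟪y, v⟫| ≤ 1} with hL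
  have hbL : ∀ y ∈ L, ‖y‖ ≤ b := by
    intro y hy
    rcases eq_or_ne y 0 with rfl | hy0
    · simpa using hb.le
    have hy0' : 0 < ‖y‖ := norm_pos_iff.2 hy0
    have h1 := hpol ((b * ‖y‖)⁻¹ • y) (by
      intro w hw
      calc |⟪(b * ‖y‖)⁻¹ • y, w⟫| ≤ ‖(b * ‖y‖)⁻¹ • y‖ * ‖w‖ := abs_real_inner_le_norm _ _
        _ ≤ ‖(b * ‖y‖)⁻¹ • y‖ * b := by gcongr; exact hW w hw
        _ = 1 := by
          rw [norm_smul, Real.norm_of_nonneg (by positivity)]
          field_simp) y hy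
    rw [inner_smul_left, real_inner_self_eq_norm_sq] at h1
    simp only [conj_trivial] at h1
    have h2 : (b * ‖y‖)⁻¹ * ‖y‖ ^ 2 = ‖y‖ / b := by field_simp
    rw [h2, div_le_one hb] at h1
    exact h1
  have hbK : ∀ x ∈ K, ‖x‖ ≤ a := by
    intro y hy
    rcases eq_or_ne y 0 with rfl | hy0
    · simpa using ha.le
    have hy0' : 0 < ‖y‖ := norm_pos_iff.2 hy0
    have h1 := hpol y hy ((a * ‖y‖)⁻¹ • y) (by
      intro w hw
      calc |⟪(a * ‖y‖)⁻¹ • y, w⟫| ≤ ‖(a * ‖y‖)⁻¹ • y‖ * ‖w‖ := abs_real_inner_le_norm _ _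
        _ ≤ ‖(a * ‖y‖)⁻¹ • y‖ * a := by gcongr; exact hV w hw
        _ = 1 := by
          rw [norm_smul, Real.norm_of_nonneg (by positivity)]
          field_simp)
    rw [inner_smul_right, real_inner_self_eq_norm_sq] at h1
    have h2 : (a * ‖y‖)⁻¹ * ‖y‖ ^ 2 = ‖y‖ / a := by field_simp
    rw [h2, div_le_one ha] at h1
    exact h1
  have hclosed : ∀ S : Set (EuclideanSpace ℝ (Fin m)),
      IsClosed {x : EuclideanSpace ℝ (Fin m) | ∀ s ∈ S, |⟪x, s⟫| ≤ 1} := by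
    intro S
    have : {x : EuclideanSpace ℝ (Fin m) | ∀ s ∈ S, |⟪x, s⟫| ≤ 1} =
        ⋂ s ∈ S, {x : EuclideanSpace ℝ (Fin m) | |⟪x, s⟫| ≤ 1} := by
      ext x; simp
    rw [this]
    exact isClosed_biInter fun s _ => isClosed_le (by fun_prop) continuous_const
  have hcK : IsCompact K := Metric.isCompact_of_isClosed_isBounded (hclosed W)
    ((Metric.isBounded_closedBall (x := (0 : EuclideanSpace ℝ (Fin m))) (r := a)).subset
      fun x hx => by simpa using hbK x hx)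
  have hcL : IsCompact L := Metric.isCompact_of_isClosed_isBounded (hclosed V)
    ((Metric.isBounded_closedBall (x := (0 : EuclideanSpace ℝ (Fin m))) (r := b)).subset
      fun x hx => by simpa using hbL x hx)
  have htr : ∀ S : Set (EuclideanSpace ℝ (Fin m)), IsCompact S →
      volume (WithLp.toLp 2 ⁻¹' S : Set (Fin m → ℝ)) = volume S ∧
        IsCompact (WithLp.toLp 2 ⁻¹' S : Set (Fin m → ℝ)) := by
    intro S hS
    refine ⟨(PiLp.volume_preserving_toLp (Fin m)).measure_preimage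
      hS.isClosed.measurableSet.nullMeasurableSet, ?_⟩
    exact (PiLp.homeomorph 2 (fun _ : Fin m => ℝ)).symm.isCompact_preimage.2 hS
  obtain ⟨h1, h1'⟩ := htr K hcK
  obtain ⟨h2, h2'⟩ := htr L hcL
  rw [← h1, ← h2, ← SANL.kappa_eq]
  refine SAN_proof m _ _ h1' h2' ?_ ?_ ?_
  · intro x hx w hw
    have := hx w hw
    rw [WithLp.toLp_neg, inner_neg_left, abs_neg]
    exact this
  · intro x hx w hw
    have := hx w hw
    rw [WithLp.toLp_neg, inner_neg_left, abs_neg]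
    exact this
  · intro x hx y hy
    have := hpol _ hx _ hy
    rw [PiLp.inner_apply] at this
    simpa [mul_comm] using this

theorem core (hm : 1 ≤ m) (V W : Set (EuclideanSpace ℝ (Fin m))) (a b : ℝ) (ha : 0 < a) (hb : 0 < b)
    (hV : ∀ v ∈ V, ‖v‖ ≤ a) (hW : ∀ w ∈ W, ‖w‖ ≤ b) (hVW : ∀ v ∈ V, ∀ w ∈ W, |⟪v, w⟫| = 1)
    (hpol : ∀ x, (∀ w ∈ W, |⟪x, w⟫| ≤ 1) → ∀ y, (∀ v ∈ V, |⟪y, v⟫| ≤ 1) →
      ⟪x, y⟫ ≤ (1 : ℝ)) :
    2 / (Real.pi * Real.exp 1) * m ≤ (a * b) ^ 2 := by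
  have h1 := vol_core V W a b ha hb hV hW hVW hpol
  have h2 := santalo V W a b ha hb hV hW hpol
  set G := Real.Gamma (m / 2 + 1) with hG
  have hm0 : (0 : ℝ) < m := by exact_mod_cast hm
  have hGpos : 0 < G := Real.Gamma_pos_of_pos (by positivity)
  have h3 : (1 : ℝ≥0∞) ≤ ENNReal.ofReal (((a * b) ^ 2 / 4) ^ m * (√Real.pi ^ m / G) ^ 2) := by
    calc (1 : ℝ≥0∞) ≤ _ := h1
      _ = (ENNReal.ofReal (b ^ 2 / 2) ^ m * ENNReal.ofReal (a ^ 2 / 2) ^ m) *
        (volume {x : EuclideanSpace ℝ (Fin m) | ∀ w ∈ W, |⟪x, w⟫| ≤ 1} *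
          volume {y : EuclideanSpace ℝ (Fin m) | ∀ v ∈ V, |⟪y, v⟫| ≤ 1}) := by ring
      _ ≤ (ENNReal.ofReal (b ^ 2 / 2) ^ m * ENNReal.ofReal (a ^ 2 / 2) ^ m) *
        ENNReal.ofReal (√Real.pi ^ m / G) ^ 2 := by gcongr
      _ = _ := by
        rw [← ENNReal.ofReal_pow (by positivity), ← ENNReal.ofReal_pow (by positivity),
          ← ENNReal.ofReal_pow (by positivity), ← ENNReal.ofReal_mul (by positivity),
          ← ENNReal.ofReal_mul (by positivity)]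
        congr 1
        rw [← mul_pow]
        congr 2
        ring
  rw [ENNReal.one_le_ofReal] at h3
  have h4 : ((m : ℝ) / 2) ^ m * Real.exp (-m) ≤ G ^ 2 := by
    have h5 := Pool.Agent.H703R2.LP.gamma_ge (x := (m : ℝ) / 2) (by positivity)
    have h6 : (((m : ℝ) / 2) ^ ((m : ℝ) / 2) * Real.exp (-((m : ℝ) / 2))) ^ 2 =
        ((m : ℝ) / 2) ^ m * Real.exp (-m) := by
      rw [mul_pow, ← Real.rpow_natCast _ 2, ← Real.rpow_mul (by positivity), ← Real.exp_nat_mul]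
      congr 1
      · rw [← Real.rpow_natCast]
        congr 1
        push_cast; ring
      · congr 1
        push_cast; ring
    rw [← h6]
    gcongr
  have h5 : (1 : ℝ) ≤ ((a * b) ^ 2 * (Real.pi * Real.exp 1) / (2 * m)) ^ m := by
    have hX : 0 < ((m : ℝ) / 2) ^ m * Real.exp (-m) := by positivity
    calc (1 : ℝ) ≤ ((a * b) ^ 2 / 4) ^ m * (√Real.pi ^ m / G) ^ 2 := h3
      _ = ((a * b) ^ 2 / 4) ^ m * (Real.pi ^ m / G ^ 2) := by
        have hpi : (√Real.pi ^ m) ^ 2 = Real.pi ^ m := by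
          rw [← pow_mul, mul_comm m 2, pow_mul, Real.sq_sqrt Real.pi_pos.le]
        rw [div_pow (√Real.pi ^ m), hpi]
      _ ≤ ((a * b) ^ 2 / 4) ^ m * (Real.pi ^ m / (((m : ℝ) / 2) ^ m * Real.exp (-m))) := by gcongr
      _ = _ := by
        rw [Real.exp_neg, ← Real.exp_one_pow m]
        have h8 : Real.pi ^ m / (((m : ℝ) / 2) ^ m * (Real.exp 1 ^ m)⁻¹) =
            (Real.pi * Real.exp 1 / ((m : ℝ) / 2)) ^ m := by
          rw [div_pow (Real.pi * Real.exp 1), mul_pow Real.pi]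
          have hA : (0 : ℝ) < ((m : ℝ) / 2) ^ m := by positivity
          generalize ((m : ℝ) / 2) ^ m = A at hA
          field_simp
        rw [h8, ← mul_pow]
        congr 1
        field_simp
        norm_num
  have h6 : (1 : ℝ) ≤ (a * b) ^ 2 * (Real.pi * Real.exp 1) / (2 * m) := by
    by_contra hcon
    rw [not_le] at hcon
    have := pow_lt_one₀ (by positivity) hcon (by omega : m ≠ 0)
    linarith
  rw [one_le_div (by positivity)] at h6
  have hpe : 0 < Real.pi * Real.exp 1 := by positivity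
  rw [div_mul_eq_mul_div, div_le_iff₀ hpe]
  exact h6

end Pool.Agent.TH296.NumIdx
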