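import Pool.Agent.H356R3.HT.SAN
import Pool.Agent.H703R2.LP.Ball

/-!
MP_30533e_an (helper296): the Voronoi cell argument.
-/

set_option autoImplicit false
open MeasureTheory Set Module
open scoped ENNReal RealInnerProductSpace Pointwise

namespace Pool.Agent.TH296.NumIdx

variable {m : ℕ}

/-- If a set `S` of vectors of length at most `r` lies in the lattice generated by a basis `c`, then
the Voronoi cell of the lattice lies in `{x | ∀ s ∈ S, |⟪x, s⟫| ≤ r² / 2}`. -/
theorem fund_le (c : Basis (Fin m) ℝ (EuclideanSpace ℝ (Fin m))) (S : Set (EuclideanSpace ℝ (Fin m)))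
    (hS : S ⊆ (Submodule.span ℤ (Set.range c) : Set (EuclideanSpace ℝ (Fin m)))) (r : ℝ)
    (hr : ∀ s ∈ S, ‖s‖ ≤ r) :
    volume (ZSpan.fundamentalDomain c) ≤
      volume {x : EuclideanSpace ℝ (Fin m) | ∀ s ∈ S, |⟪x, s⟫| ≤ r ^ 2 / 2} := by
  set Λ := Submodule.span ℤ (Set.range c) with hΛ
  set T := {x : EuclideanSpace ℝ (Fin m) | ∀ s ∈ S, |⟪x, s⟫| ≤ r ^ 2 / 2} with hT
  have hcl : IsClosed (Λ : Set (EuclideanSpace ℝ (Fin m))) := by
    have : DiscreteTopology Λ.toAddSubgroup := inferInstanceAs (DiscreteTopology Λ)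
    exact AddSubgroup.isClosed_of_discrete (H := Λ.toAddSubgroup)
  have hcov : ∀ x : EuclideanSpace ℝ (Fin m), ∃ g : Λ.toAddSubgroup, x ∈ g +ᵥ T := by
    intro x
    obtain ⟨z, hz, hzd⟩ := hcl.exists_infDist_eq_dist ⟨0, Λ.zero_mem⟩ x
    refine ⟨⟨z, hz⟩, ?_⟩
    rw [Set.mem_vadd_set]
    refine ⟨x - z, ?_, ?_⟩
    · have key : ∀ s ∈ Λ, ⟪x - z, s⟫ ≤ ‖s‖ ^ 2 / 2 := by
        intro s hs
        have h1 : dist x z ≤ dist x (z + s) := by
          rw [← hzd]
          exact Metric.infDist_le_dist_of_mem (Λ.add_mem hz hs)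
        rw [dist_eq_norm, dist_eq_norm, ← sub_sub] at h1
        have h2 : ‖x - z‖ ^ 2 ≤ ‖x - z - s‖ ^ 2 := by gcongr
        rw [@norm_sub_sq_real _ _ _ (x - z) s] at h2
        linarith
      intro s hs
      have hb : ‖s‖ ^ 2 / 2 ≤ r ^ 2 / 2 := by
        have := hr s hs
        gcongr
      have h1 := key s (hS hs)
      have h2 := key (-s) (Λ.neg_mem (hS hs))
      rw [inner_neg_right, norm_neg] at h2
      rw [abs_le]
      constructor <;> linarith
    · show z + (x - z) = x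
      abel
  have hcount : Countable Λ.toAddSubgroup := inferInstanceAs (Countable Λ)
  have h := (ZSpan.isAddFundamentalDomain' c volume).measure_eq_tsum T
  rw [h]
  calc volume (ZSpan.fundamentalDomain c)
      ≤ volume (⋃ g : Λ.toAddSubgroup, (g +ᵥ T) ∩ ZSpan.fundamentalDomain c) := by
        refine measure_mono fun x hx => ?_
        obtain ⟨g, hg⟩ := hcov x
        exact Set.mem_iUnion.2 ⟨g, hg, hx⟩
    _ ≤ ∑' g : Λ.toAddSubgroup, volume ((g +ᵥ T) ∩ ZSpan.fundamentalDomain c) := measure_iUnion_le _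

theorem inner_nondeg : (innerₗ (EuclideanSpace ℝ (Fin m)) :
    LinearMap.BilinForm ℝ (EuclideanSpace ℝ (Fin m))).Nondegenerate := by
  constructor
  · intro x hx
    have := hx x
    simpa using this
  · intro x hx
    have := hx x
    simpa using this

/-- existence of the dual basis -/
theorem exists_dual (c : Basis (Fin m) ℝ (EuclideanSpace ℝ (Fin m))) :
    ∃ d : Basis (Fin m) ℝ (EuclideanSpace ℝ (Fin m)),
      ∀ i j, ⟪c i, d j⟫ = if i = j then (1 : ℝ) else 0 := by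
  refine ⟨LinearMap.BilinForm.dualBasis (innerₗ (EuclideanSpace ℝ (Fin m))) inner_nondeg c, ?_⟩
  intro i j
  have h := LinearMap.BilinForm.apply_dualBasis_left (B := innerₗ (EuclideanSpace ℝ (Fin m)))
    inner_nondeg c j i
  rw [real_inner_comm]
  exact h

theorem vol_std : volume (ZSpan.fundamentalDomain (EuclideanSpace.basisFun (Fin m) ℝ).toBasis) = 1 := by
  rw [measure_congr (ZSpan.fundamentalDomain_ae_parallelepiped _ volume)]
  have := (EuclideanSpace.basisFun (Fin m) ℝ).volume_parallelepiped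
  rw [← this]
  congr 2

theorem vol_mul (c d : Basis (Fin m) ℝ (EuclideanSpace ℝ (Fin m)))
    (h : ∀ i j, ⟪c i, d j⟫ = if i = j then (1 : ℝ) else 0) :
    volume (ZSpan.fundamentalDomain c) * volume (ZSpan.fundamentalDomain d) = 1 := by
  classical
  set e := (EuclideanSpace.basisFun (Fin m) ℝ).toBasis with he
  rw [ZSpan.measure_fundamentalDomain c volume e, ZSpan.measure_fundamentalDomain d volume e, vol_std,
    mul_one, mul_one, ← ENNReal.ofReal_mul (abs_nonneg _), ← abs_mul]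
  have h1 : e.det c * e.det d = 1 := by
    rw [Basis.det_apply, Basis.det_apply, ← Matrix.det_transpose (e.toMatrix c), ← Matrix.det_mul]
    have : (e.toMatrix c).transpose * e.toMatrix d = 1 := by
      ext i j
      rw [Matrix.mul_apply, Matrix.one_apply, ← h i j]
      simp only [Matrix.transpose_apply, Basis.toMatrix_apply, he]
      rw [PiLp.inner_apply]
      refine Finset.sum_congr rfl fun k _ => ?_
      simp [mul_comm]
    rw [this, Matrix.det_one]
  rw [h1]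
  simp

/-- a subgroup on which every element of a spanning set pairs integrally -/
theorem int_span (V W : Set (EuclideanSpace ℝ (Fin m)))
    (hVW : ∀ v ∈ V, ∀ w ∈ W, |⟪v, w⟫| = 1) {z : EuclideanSpace ℝ (Fin m)}
    (hz : z ∈ Submodule.span ℤ V) {w : EuclideanSpace ℝ (Fin m)} (hw : w ∈ W) :
    ∃ k : ℤ, ⟪z, w⟫ = k := by
  induction hz using Submodule.span_induction with
  | mem x hx =>
    rcases (abs_eq (zero_le_one)).1 (hVW x hx w hw) with h | h
    · exact ⟨1, by simp [h]⟩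
    · exact ⟨-1, by simp [h]⟩
  | zero => exact ⟨0, by simp⟩
  | add x y _ _ hx hy =>
    obtain ⟨k, hk⟩ := hx
    obtain ⟨l, hl⟩ := hy
    exact ⟨k + l, by rw [inner_add_left, hk, hl]; push_cast; ring⟩
  | smul n x _ hx =>
    obtain ⟨k, hk⟩ := hx
    refine ⟨n * k, ?_⟩
    rw [← Int.cast_smul_eq_zsmul ℝ n x, inner_smul_left, hk]
    simp

/-- The measure inequality. -/
theorem vol_core (V W : Set (EuclideanSpace ℝ (Fin m))) (a b : ℝ) (ha : 0 < a) (hb : 0 < b)
    (hV : ∀ v ∈ V, ‖v‖ ≤ a) (hW : ∀ w ∈ W, ‖w‖ ≤ b) (hVW : ∀ v ∈ V, ∀ w ∈ W, |⟪v, w⟫| = 1)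
    (hpol : ∀ x, (∀ w ∈ W, |⟪x, w⟫| ≤ 1) → ∀ y, (∀ v ∈ V, |⟪y, v⟫| ≤ 1) →
      ⟪x, y⟫ ≤ (1 : ℝ)) :
    (1 : ℝ≥0∞) ≤ (ENNReal.ofReal (b ^ 2 / 2) ^ m * volume {x : EuclideanSpace ℝ (Fin m) | ∀ w ∈ W, |⟪x, w⟫| ≤ 1}) *
      (ENNReal.ofReal (a ^ 2 / 2) ^ m * volume {y : EuclideanSpace ℝ (Fin m) | ∀ v ∈ V, |⟪y, v⟫| ≤ 1}) := by
  set K := {x : EuclideanSpace ℝ (Fin m) | ∀ w ∈ W, |⟪x, w⟫| ≤ 1} with hK
  set L := {y : EuclideanSpace ℝ (Fin m) | ∀ v ∈ V, |⟪y, v⟫| ≤ 1} with hL
  -- a vector all of whose multiples are in `L` vanishes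
  have hbL : ∀ y ∈ L, ‖y‖ ≤ b := by
    intro y hy
    rcases eq_or_ne y 0 with rfl | hy0
    · simpa using hb.le
    have hy0' : 0 < ‖y‖ := norm_pos_iff.2 hy0
    have h1 := hpol ((b * ‖y‖)⁻¹ • y) (by
      intro w hw
      calc |⟪(b * ‖y‖)⁻¹ • y, w⟫| ≤ ‖(b * ‖y‖)⁻¹ • y‖ * ‖w‖ := abs_real_inner_le_norm _ _
        _ ≤ ‖(b * ‖y‖)⁻¹ • y‖ * b := by gcongr; exact hW w hw
        _ = 1 := by
          rw [norm_smul, Real.norm_of_nonneg (by positivity)]
          field_simp) y hy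
    rw [inner_smul_left, real_inner_self_eq_norm_sq] at h1
    simp only [conj_trivial] at h1
    have h2 : (b * ‖y‖)⁻¹ * ‖y‖ ^ 2 = ‖y‖ / b := by field_simp
    rw [h2, div_le_one hb] at h1
    exact h1
  have hbK : ∀ x ∈ K, ‖x‖ ≤ a := by
    intro y hy
    rcases eq_or_ne y 0 with rfl | hy0
    · simpa using ha.le
    have hy0' : 0 < ‖y‖ := norm_pos_iff.2 hy0
    have h1 := hpol y hy ((a * ‖y‖)⁻¹ • y) (by
      intro w hw
      calc |⟪(a * ‖y‖)⁻¹ • y, w⟫| ≤ ‖(a * ‖y‖)⁻¹ • y‖ * ‖w‖ := abs_real_inner_le_norm _ _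
        _ ≤ ‖(a * ‖y‖)⁻¹ • y‖ * a := by gcongr; exact hV w hw
        _ = 1 := by
          rw [norm_smul, Real.norm_of_nonneg (by positivity)]
          field_simp)
    rw [inner_smul_right, real_inner_self_eq_norm_sq] at h1
    have h2 : (a * ‖y‖)⁻¹ * ‖y‖ ^ 2 = ‖y‖ / a := by field_simp
    rw [h2, div_le_one ha] at h1
    exact h1
  have hzL : ∀ y : EuclideanSpace ℝ (Fin m), (∀ v ∈ V, ⟪y, v⟫ = (0 : ℝ)) → y = 0 := by
    intro y hy
    by_contra hy0
    have hy0' : 0 < ‖y‖ := norm_pos_iff.2 hy0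
    have h1 := hbL (((b + 1) / ‖y‖) • y) (fun v hv => by
      rw [inner_smul_left, hy v hv]; simp)
    rw [norm_smul, Real.norm_of_nonneg (by positivity), div_mul_cancel₀ _ hy0'.ne'] at h1
    linarith
  have hzK : ∀ y : EuclideanSpace ℝ (Fin m), (∀ v ∈ W, ⟪y, v⟫ = (0 : ℝ)) → y = 0 := by
    intro y hy
    by_contra hy0
    have hy0' : 0 < ‖y‖ := norm_pos_iff.2 hy0
    have h1 := hbK (((a + 1) / ‖y‖) • y) (fun v hv => by
      rw [inner_smul_left, hy v hv]; simp)
    rw [norm_smul, Real.norm_of_nonneg (by positivity), div_mul_cancel₀ _ hy0'.ne'] at h1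
    linarith
  -- the lattice
  set Λ := Submodule.span ℤ V with hΛ
  have hdisc : DiscreteTopology Λ := by
    refine discreteTopology_of_isOpen_singleton_zero ?_
    rw [Metric.isOpen_singleton_iff]
    refine ⟨1 / b, by positivity, ?_⟩
    rintro ⟨z, hz⟩ hz1
    have hz2 : ‖z‖ < 1 / b := by
      have : dist (⟨z, hz⟩ : Λ) 0 = ‖z‖ := by
        rw [dist_zero_right]; rfl
      rwa [this] at hz1
    have : z = 0 := by
      refine hzK z fun w hw => ?_
      obtain ⟨k, hk⟩ := int_span V W hVW hz hw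
      have h3 : |⟪z, w⟫| < (1 : ℝ) := by
        calc |⟪z, w⟫| ≤ ‖z‖ * ‖w‖ := abs_real_inner_le_norm _ _
          _ ≤ ‖z‖ * b := by gcongr; exact hW w hw
          _ < 1 / b * b := by gcongr
          _ = 1 := by field_simp
      rw [hk] at h3 ⊢
      have h4 : |k| < 1 := by exact_mod_cast h3
      have h5 : k = 0 := by
        rw [abs_lt] at h4
        omega
      rw [h5]; simp
    exact Subtype.ext this
  have hspan : Submodule.span ℝ V = ⊤ := by
    rw [← Submodule.orthogonal_eq_bot_iff, Submodule.eq_bot_iff]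
    intro y hy
    refine hzL y fun v hv => ?_
    rw [Submodule.mem_orthogonal] at hy
    rw [real_inner_comm]
    exact hy v (Submodule.subset_span hv)
  have hZ : IsZLattice ℝ Λ := by
    refine ⟨?_⟩
    rw [eq_top_iff, ← hspan]
    exact Submodule.span_mono Submodule.subset_span
  have hfree : Module.Free ℤ Λ := ZLattice.module_free ℝ Λ
  have hfin : Module.Finite ℤ Λ := ZLattice.module_finite ℝ Λ
  have hrank : Module.finrank ℤ Λ = m := by
    rw [ZLattice.rank ℝ Λ, finrank_euclideanSpace_fin]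
  let b0 : Basis (Fin m) ℤ Λ := Module.finBasisOfFinrankEq ℤ Λ hrank
  let c : Basis (Fin m) ℝ (EuclideanSpace ℝ (Fin m)) := b0.ofZLatticeBasis ℝ Λ
  have hc : Submodule.span ℤ (Set.range c) = Λ := b0.ofZLatticeBasis_span ℝ Λ
  obtain ⟨d, hcd⟩ := exists_dual c
  have hci : ∀ i, c i ∈ Λ := fun i => by
    rw [← hc]; exact Submodule.subset_span ⟨i, rfl⟩
  have hWd : W ⊆ (Submodule.span ℤ (Set.range d) : Set (EuclideanSpace ℝ (Fin m))) := by
    intro w hw
    have h1 : w = ∑ i, d.repr w i • d i := (d.sum_repr w).symm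
    have h2 : ∀ i, ⟪c i, w⟫ = d.repr w i := by
      intro i
      conv_lhs => rw [h1]
      rw [inner_sum]
      simp only [inner_smul_right, hcd]
      simp
    rw [h1]
    refine Submodule.sum_mem _ fun i _ => ?_
    obtain ⟨k, hk⟩ := int_span V W hVW (hci i) hw
    rw [← h2, hk, Int.cast_smul_eq_zsmul]
    exact Submodule.smul_mem _ _ (Submodule.subset_span ⟨i, rfl⟩)
  have hVc : V ⊆ (Submodule.span ℤ (Set.range c) : Set (EuclideanSpace ℝ (Fin m))) := by
    rw [hc]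
    exact Submodule.subset_span
  have hscale : ∀ (S : Set (EuclideanSpace ℝ (Fin m))) (r : ℝ), 0 < r →
      volume {x : EuclideanSpace ℝ (Fin m) | ∀ s ∈ S, |⟪x, s⟫| ≤ r} =
        ENNReal.ofReal r ^ m * volume {x : EuclideanSpace ℝ (Fin m) | ∀ s ∈ S, |⟪x, s⟫| ≤ 1} := by
    intro S r hr
    have h1 : {x : EuclideanSpace ℝ (Fin m) | ∀ s ∈ S, |⟪x, s⟫| ≤ r} =
        r • {x : EuclideanSpace ℝ (Fin m) | ∀ s ∈ S, |⟪x, s⟫| ≤ 1} := by
      ext x
      rw [Set.mem_smul_set_iff_inv_smul_mem₀ hr.ne']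
      simp only [Set.mem_ofPred_eq, inner_smul_left, conj_trivial, abs_mul, abs_of_pos (inv_pos.2 hr)]
      constructor
      · intro h s hs
        rw [inv_mul_le_iff₀ hr, mul_one]
        exact h s hs
      · intro h s hs
        have := h s hs
        rwa [inv_mul_le_iff₀ hr, mul_one] at this
    rw [h1, Measure.addHaar_smul, finrank_euclideanSpace_fin, abs_of_pos (pow_pos hr m),
      ENNReal.ofReal_pow hr.le]
  have h1 := fund_le d W hWd b hW
  have h2 := fund_le c V hVc a hV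
  rw [hscale W _ (by positivity)] at h1
  rw [hscale V _ (by positivity)] at h2
  calc (1 : ℝ≥0∞) = volume (ZSpan.fundamentalDomain d) * volume (ZSpan.fundamentalDomain c) := by
        rw [mul_comm]; exact (vol_mul c d hcd).symm
    _ ≤ _ := mul_le_mul' h1 h2

end Pool.Agent.TH296.NumIdx
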